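import Pool.Agent.MTN.Stmts2

/-! MTN: assembly of the Hodge side. -/

set_option autoImplicit false

namespace Pool.Agent.MTN.H88

open Matrix Polynomial NumberField Pool.Agent.MT100 Pool.Agent.MT100G Pool.Agent.MT100A
  Pool.Agent.MT100D Pool.Agent.Helper78_MT Pool.Agent.MTL Pool.Agent.MTN.H53 Pool.Agent.HIK

universe u

theorem n1h (hM : MazStmt.{u}) (hW : WdzStmt) (hF : FpzStmt.{u}) : N1hStmt.{u} := by
  intro d _ _ F w lev hw
  obtain ⟨C, R1, h⟩ := hM d F w lev hw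
  obtain ⟨R0, hR0⟩ := hF d F w lev hw
  refine ⟨C, R1, R0, fun P hP hInt => ?_⟩
  obtain ⟨S, hwin, hS⟩ := h P hP hInt
  refine ⟨S, hwin, fun k _ _ σ => hW S C R1 hwin k σ, fun x hx E V hV => ?_⟩
  refine ⟨hS x hx E V hV, fun R hR hRx hfix y hy E' V' hV' hFil' => ?_⟩
  exact hR0 P R hP hInt hR hfix x y hRx hy E E' V V' hV (hS x hx E V hV) hV' hFil'

end Pool.Agent.MTN.H88
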