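import Pool.Agent.Helper88_MTN.Fin
import Pool.Agent.Helper97_MTD.Ass
import Pool.Agent.Helper20_MTA.Ten
import Pool.Agent.Helper78_MTA.Teu
import Pool.Agent.Helper64_MTA.Lie
import Pool.Agent.Helper63_MTN.TRP
import Pool.Agent.Helper21_MTN.GFE
import Pool.Agent.Helper1_MTN.Gme
import Pool.Agent.Helper1_MTN.Vgc
import Pool.Agent.Helper29_MTN.FSC
import Pool.Agent.Helper38_MTN.AMP
import Pool.Agent.Helper76_MTN.NMZ
import Pool.Agent.Helper64_MTN.ELZ
import Pool.Agent.Helper21_MTN.MAZ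
import Pool.Agent.Helper92_MTN.FPZ
import Pool.Agent.Helper49_MTN.PTH
import Pool.Agent.Helper10_MTN.Pid
import Pool.Agent.Helper82_MTN.WDZ
import Pool.Agent.Helper21_HIK.SML
import Pool.Agent.HIK.All
import Pool.Agent.Helper87_HIK.SER

/-! MTN: assembly of N1. -/

set_option autoImplicit false

namespace Pool.Agent.MTN.H88

open Pool.Agent.HIK

universe u

theorem gmeA : GmeStmt := H1.gme H21.gfe
theorem fscA : FscStmt := H29.fsc MT100D.H97.fsa' H1.vgc MT100D.H20.trgD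
theorem nmzA : NmzStmt := H76.nmz gmeA H1.vgc fscA H38.amp MT100D.H20.trgD MT100D.H83.sysD
theorem elzA : ElzStmt := H64.elz nmzA H63.trp
theorem mazA : MazStmt.{u} :=
  H21.maz elzA MT100A.H20.ten MT100A.H78.teu MT100A.H64.lie MT100D.H97.bas MT100D.H97.moa
theorem smlA : SmlStmt := HIK.H21.sml avgA
theorem wdzA : WdzStmt := H82.wdz H49.pth avwA smlA dzcA boxA
theorem pidA : PidStmt := H10.pid dzcA
theorem n1hA : N1hStmt.{u} := n1h mazA wdzA H92.fpz
theorem finA : FinStmt.{u} := HIK.H81.fin (HIK.H87.ser higA dekA gpfA) monA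
theorem n1A : N1Stmt.{u} := n1 n1hA finA pidA

end Pool.Agent.MTN.H88
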