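import Pool.Agent.Helper88_MTN.N1h

/-! MTN: the final statement of N1 (Hodge side and l-adic side). -/

set_option autoImplicit false

namespace Pool.Agent.MTN.H88

open Matrix Polynomial NumberField Pool.Agent.MT100 Pool.Agent.MT100G Pool.Agent.MT100A
  Pool.Agent.MT100D Pool.Agent.Helper78_MT Pool.Agent.MTL Pool.Agent.MTN.H53 Pool.Agent.HIK

universe u

/-- the theorem N1 -/
def N1Stmt : Prop :=
  ∀ (d : Type) [Fintype d] [DecidableEq d] (F : Family d) (w : ℕ) (lev : d → ℕ), 1 ≤ w →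
    ∃ (C : ℕ) (R1 : ℕ → ℕ → ℕ → ℝ) (R0 : ℝ), ∀ P : Matrix d d ℂ, IsUnit P.det → F.IntM P →
      ∃ S : Set ℂ,
        (∀ (m a K : ℕ), ∀ x ∈ Pts m a, R1 m a K ≤ ‖x‖ →
          Nat.card {κ : ℕ // κ < K ∧ x - κ ∈ S} ≤ C) ∧
        (∀ (k : Type) [Field k] [NumberField k] (σ : k →+* ℂ), DZ k {a : 𝓞 k | σ a ∈ S}) ∧
        (∀ x : ℂ, x ∉ S → ∀ (E : Matrix d d ℚ) (V : ℕ → Submodule ℂ (d → ℂ)),
          FibreC F lev P w x E V →
          (∀ (K : Type u) [Field K] [CharZero K], mtGroup w V K = GenM (F.Mo P) w V K) ∧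
          ∀ R : ℝ, R0 ≤ R → R < ‖x‖ → FixedC F lev P w R →
            ∀ y : ℂ, R < ‖y‖ → ∀ (E' : Matrix d d ℚ) (V' : ℕ → Submodule ℂ (d → ℂ)),
            PolHodge w E' V' → F.HasFil lev P y V' →
            ∀ (K : Type u) [Field K] [CharZero K], mtGroup w V' K ⊆ mtGroup w V K) ∧
        ∀ ρ : (ℓ : ℕ) → [Fact ℓ.Prime] → GT →* GL d ℚ_[ℓ],
          (∀ (ℓ : ℕ) [Fact ℓ.Prime], Continuous (ρ ℓ)) →
          ∀ (k : Type) [Field k] [NumberField k], ∃ (T : Set (𝓞 k)) (N : ℕ → ℕ), DZ k T ∧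
            ∀ (ℓ : ℕ) [Fact ℓ.Prime] (a : 𝓞 k), a ∉ T → (N ℓ : ℝ) ≤ house (a : k) →
            ∀ (ψ : k →+* QB) (ρa : Stab (ψ a) →* GL d ℚ_[ℓ]), SpecializesAt (ρ ℓ) (ψ a) ρa →
            ∀ (K : Type u) [Field K] [CharZero K] [Algebra ℚ_[ℓ] K],
              monodromy ρa K = monodromy (ρ ℓ) K ∧
              ∀ e : QB →+* ℂ, e (ψ a) ∉ S →
                ∀ (E : Matrix d d ℚ) (V : ℕ → Submodule ℂ (d → ℂ)),
                FibreC F lev P w (e (ψ a)) E V →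
                (monodromy ρa K = mtGroup w V K ↔ monodromy (ρ ℓ) K = GenM (F.Mo P) w V K) ∧
                ∀ R : ℝ, R0 ≤ R → R < ‖e (ψ a)‖ → FixedC F lev P w R →
                  ∀ x : ℂ, R < ‖x‖ → x ∉ S →
                  ∀ (E' : Matrix d d ℚ) (V' : ℕ → Submodule ℂ (d → ℂ)), FibreC F lev P w x E' V' →
                  (monodromy ρa K = mtGroup w V K ↔ monodromy (ρ ℓ) K = mtGroup w V' K)

theorem n1 (h : N1hStmt.{u}) (hF : FinStmt.{u}) (hP : PidStmt) : N1Stmt.{u} := by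
  intro d _ _ F w lev hw
  obtain ⟨C, R1, R0, h⟩ := h d F w lev hw
  refine ⟨C, R1, R0, fun P hPd hInt => ?_⟩
  obtain ⟨S, hwin, hdz, hS⟩ := h P hPd hInt
  refine ⟨S, hwin, hdz, hS, fun ρ hρ k _ _ => ?_⟩
  classical
  have hex : ∀ ℓ : ℕ, ∃ T : Set (𝓞 k), DZ k T ∧ ∀ (hℓ : Fact ℓ.Prime), ∀ a ∉ T, ∀ (ψ : k →+* QB)
      (ρa : Stab (ψ a) →* GL d ℚ_[ℓ]), SpecializesAt (ρ ℓ) (ψ a) ρa →
        ∀ (K : Type u) [Field K] [Algebra ℚ_[ℓ] K], monodromy ρa K = monodromy (ρ ℓ) K := by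
    intro ℓ
    by_cases hℓ : Nat.Prime ℓ
    · have : Fact ℓ.Prime := ⟨hℓ⟩
      obtain ⟨T, hT, h2⟩ := hF k d ℓ (ρ ℓ) (hρ ℓ)
      exact ⟨T, hT, fun _ => h2⟩
    · exact ⟨∅, by
        unfold DZ
        simp, fun h => absurd h.out hℓ⟩
  choose T0 hT0 hT1 using hex
  obtain ⟨T, N, hT, hN⟩ := hP k T0 hT0
  refine ⟨T, N, hT, fun ℓ hℓ a ha hNa ψ ρa hsp K _ _ _ => ?_⟩
  have ha0 : a ∉ T0 ℓ := fun h => ha (hN ℓ a h hNa)
  have hmon := hT1 ℓ hℓ a ha0 ψ ρa hsp K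
  refine ⟨hmon, fun e he E V hV => ?_⟩
  have h1 := (hS _ he E V hV).1 K
  refine ⟨by rw [hmon, h1], fun R hR hRx hfix x hx hxS E' V' hV' => ?_⟩
  have h2 := (hS _ he E V hV).2 R hR hRx hfix x hx E' V' hV'.1 hV'.2.2 K
  have h3 := (hS x hxS E' V' hV').2 R hR hx hfix _ hRx E V hV.1 hV.2.2 K
  rw [hmon, Set.Subset.antisymm h3 h2]

end Pool.Agent.MTN.H88
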