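import Pool.Agent.Helper88_MTN.All
import Pool.Agent.Helper97_MTE.Ass

/-! MTN: N4, the Mumford-Tate conjecture for one hundred percent of the points over every number field of
the families whose commutant is of type (0,0). -/

set_option autoImplicit false

namespace Pool.Agent.MTN.H88

open Matrix Polynomial NumberField Pool.Agent.MT100 Pool.Agent.MT100G Pool.Agent.MT100A
  Pool.Agent.MT100D Pool.Agent.MT100E Pool.Agent.Helper78_MT Pool.Agent.MTL Pool.Agent.MTN.H53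
  Pool.Agent.HIK

universe u

/-- the theorem N4 -/
def N4Stmt : Prop :=
  ∀ (d : Type) [Fintype d] [DecidableEq d] (F : Family d) (w : ℕ) (lev : d → ℕ), 1 ≤ w →
    ∃ (C : ℕ) (R1 : ℕ → ℕ → ℕ → ℝ), ∀ P : Matrix d d ℂ, IsUnit P.det → F.IntM P →
      ∃ S : Set ℂ,
        (∀ (m A K : ℕ), ∀ x ∈ Pts m A, R1 m A K ≤ ‖x‖ →
          Nat.card {κ : ℕ // κ < K ∧ x - κ ∈ S} ≤ C) ∧
        (∀ (k : Type) [Field k] [NumberField k] (σ : k →+* ℂ), DZ k {a : 𝓞 k | σ a ∈ S}) ∧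
        (∀ x : ℂ, x ∉ S → ∀ (E : Matrix d d ℚ) (V : ℕ → Submodule ℂ (d → ℂ)),
          FibreC F lev P w x E V → FirstKind E (F.Mo P) → TorusIn w V (F.Mo P) →
          ∀ (K : Type u) [Field K] [CharZero K], mtGroup w V K = GmM (F.Mo P) K) ∧
        ∀ ρ : (ℓ : ℕ) → [Fact ℓ.Prime] → GT →* GL d ℚ_[ℓ],
          (∀ (ℓ : ℕ) [Fact ℓ.Prime], Continuous (ρ ℓ)) →
          ∀ (k : Type) [Field k] [NumberField k], ∃ (T : Set (𝓞 k)) (N : ℕ → ℕ), DZ k T ∧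
            ∀ (ℓ : ℕ) [Fact ℓ.Prime] (a : 𝓞 k), a ∉ T → (N ℓ : ℝ) ≤ house (a : k) →
            ∀ (ψ : k →+* QB) (ρa : Stab (ψ a) →* GL d ℚ_[ℓ]), SpecializesAt (ρ ℓ) (ψ a) ρa →
            ∀ e : QB →+* ℂ, e (ψ a) ∉ S → ∀ (E : Matrix d d ℚ) (V : ℕ → Submodule ℂ (d → ℂ)),
            FibreC F lev P w (e (ψ a)) E V → TorusIn w V (F.Mo P) →
            GeoN (F.Mo P) E w V (ρ ℓ) →
            ∀ (K : Type u) [Field K] [CharZero K] [Algebra ℚ_[ℓ] K],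
              monodromy ρa K = mtGroup w V K

theorem n4A : N4Stmt.{u} := by
  intro d _ _ F w lev hw
  obtain ⟨C, R1, R0, h⟩ := n1A.{u} d F w lev hw
  refine ⟨C, R1, fun P hP hI => ?_⟩
  obtain ⟨S, hwin, hdz, h1, h2⟩ := h P hP hI
  have hMul : ∀ a ∈ F.Mo P, ∀ b ∈ F.Mo P, a * b ∈ F.Mo P := fun a ha b hb =>
    MT100D.H97.Mo_mul MT100D.H97.bas F hP ha hb
  refine ⟨S, hwin, hdz, ?_, fun ρ hρ k _ _ => ?_⟩
  · intro x hx E V hF hFK hT K _ _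
    rw [(h1 x hx E V hF).1 K]
    exact (MT100D.H97.ladm.{u} d (F.Mo P) hMul hI w E V hw hF.1 hF.2.1 hFK hT).1 K
  · obtain ⟨T, N, hT, h3⟩ := h2 ρ hρ k
    refine ⟨T, N, hT, fun ℓ _ a haT hN ψ ρa hsp e he E V hF hTT hgeo K _ _ _ => ?_⟩
    rw [(h3 ℓ a haT hN ψ ρa hsp K).1, (h1 _ he E V hF).1 K]
    exact MT100E.H97.ladE' d (F.Mo P) hMul hI w E V hw hF.1 hF.2.1 hTT ℓ GT (ρ ℓ) (hρ ℓ) hgeo K

end Pool.Agent.MTN.H88
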